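import Pool.Agent.R749.Torus5

/-!
# Isometric embeddings of perturbed metrics on an embedded torus: a negative answer

The torus `T²` is `ℝ² / (2πℤ)²`; functions, metrics and maps on it are written as functions of
`(u, v) ∈ ℝ²` of period `2π` in both variables.

The metric of the torus of revolution with the radii `r < R` is `r² du² + (R + r cos u)² dv²`. For
`0 < s < r` the metric `r² du² + (R + s cos u)² dv²` has the total positive curvature
`∫ K⁺ dA = 4π s / r < 4π`, hence no isometric immersion in `ℝ³`: the Gauss map of an immersed closed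
surface maps the support points of its convex hull, at which `K ≥ 0`, onto a set of total area `4π`.
As `s → r` these metrics converge to the metric of the torus of revolution with all derivatives.
-/

set_option autoImplicit false

namespace Pool.Agent.Results.MP_665542_gt.TorusOfRevolution

open scoped RealInnerProductSpace ContDiff
open Real

/-- Euclidean 3-space. -/
abbrev E3 : Type := EuclideanSpace ℝ (Fin 3)

/-- The map `f` of the plane has the period `2π` in both variables: it is a map of the torus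
`T² = ℝ² / (2πℤ)²`. -/
def Biperiodic {X : Type} (f : ℝ × ℝ → X) : Prop :=
  ∀ u v, f (u + 2 * π, v) = f (u, v) ∧ f (u, v + 2 * π) = f (u, v)

/-- A smooth Riemannian metric `E du² + 2 F du dv + G dv²` on the torus `T² = ℝ² / (2πℤ)²`. -/
structure TorusMetric where
  E : ℝ × ℝ → ℝ
  F : ℝ × ℝ → ℝ
  G : ℝ × ℝ → ℝ
  smooth_E : ContDiff ℝ ∞ E
  smooth_F : ContDiff ℝ ∞ F
  smooth_G : ContDiff ℝ ∞ G
  periodic_E : Biperiodic E
  periodic_F : Biperiodic F
  periodic_G : Biperiodic G
  pos : ∀ p, 0 < E p
  det_pos : ∀ p, 0 < E p * G p - F p ^ 2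

/-- The matrix of the metric `g` at `p`. -/
def TorusMetric.mat (g : TorusMetric) (p : ℝ × ℝ) : Matrix (Fin 2) (Fin 2) ℝ :=
  !![g.E p, g.F p; g.F p, g.G p]

/-- The norm `|H|_A = √(tr ((A⁻¹ H)²))` of a symmetric 2-tensor with the matrix `H` with respect to
the inner product with the matrix `A`. -/
noncomputable def tensorNorm (A H : Matrix (Fin 2) (Fin 2) ℝ) : ℝ :=
  √(Matrix.trace ((A⁻¹ * H) * (A⁻¹ * H)))

/-- `‖g - g₀‖_{C⁰} < ε`: the supremum over the torus of the pointwise `g₀`-norm of `g - g₀` is less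
than `ε`. -/
def C0Close (g g₀ : TorusMetric) (ε : ℝ) : Prop :=
  ∃ c : ℝ, c < ε ∧ ∀ p, tensorNorm (g₀.mat p) (g.mat p - g₀.mat p) ≤ c

/-- The coefficients of `g` and `g₀`, with all their derivatives of order at most `k`, differ by at
most `ε` at every point. -/
def CkClose (k : ℕ) (g g₀ : TorusMetric) (ε : ℝ) : Prop :=
  ∀ j ≤ k, ∀ p, ‖iteratedFDeriv ℝ j (fun q => g.E q - g₀.E q) p‖ ≤ ε ∧
    ‖iteratedFDeriv ℝ j (fun q => g.F q - g₀.F q) p‖ ≤ ε ∧
    ‖iteratedFDeriv ℝ j (fun q => g.G q - g₀.G q) p‖ ≤ ε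

/-- `f` is an isometric immersion of class `C^n` of the torus with the metric `g` in `ℝ³`. -/
structure IsIsometricImmersion (n : WithTop ℕ∞) (g : TorusMetric) (f : ℝ × ℝ → E3) : Prop where
  smooth : ContDiff ℝ n f
  periodic : Biperiodic f
  isometric : ∀ p w w' : ℝ × ℝ, ⟪fderiv ℝ f p w, fderiv ℝ f p w'⟫ =
    g.E p * (w.1 * w'.1) + g.F p * (w.1 * w'.2 + w.2 * w'.1) + g.G p * (w.2 * w'.2)

/-- `f` is a smooth isometric embedding of the torus with the metric `g` in `ℝ³`: a smooth isometric
immersion that takes the same value only at points that represent the same point of the torus. -/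
structure IsIsometricEmbedding (g : TorusMetric) (f : ℝ × ℝ → E3) : Prop
    extends IsIsometricImmersion ∞ g f where
  injective : ∀ p q : ℝ × ℝ, f p = f q → ∃ m n : ℤ, q = (p.1 + 2 * π * m, p.2 + 2 * π * n)

theorem biperiodic_cos {X : Type} (h : ℝ → X) : Biperiodic (fun p : ℝ × ℝ => h (cos p.1)) := by
  intro u v
  simp [cos_add_two_pi]

/-- The metric `r² du² + (R + s cos u)² dv²`, where `r > 0` and `0 < s < R`. -/
noncomputable def warped (r R s : ℝ) (hr : 0 < r) (hs : 0 < s) (hsR : s < R) : TorusMetric where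
  E _ := r ^ 2
  F _ := 0
  G p := (R + s * cos p.1) ^ 2
  smooth_E := contDiff_const
  smooth_F := contDiff_const
  smooth_G := (contDiff_const.add (contDiff_const.mul (Real.contDiff_cos.comp contDiff_fst))).pow 2
  periodic_E := biperiodic_cos fun _ => r ^ 2
  periodic_F := biperiodic_cos fun _ => 0
  periodic_G := biperiodic_cos fun t => (R + s * t) ^ 2
  pos _ := by positivity
  det_pos p := by
    have h1 : 0 < R + s * cos p.1 := by nlinarith [neg_one_le_cos p.1]
    have : 0 < r ^ 2 * (R + s * cos p.1) ^ 2 := by positivity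
    linarith

/-- The torus of revolution with the radii `r` and `R`. -/
noncomputable def torus (r R : ℝ) (p : ℝ × ℝ) : E3 :=
  !₂[(R + r * cos p.1) * cos p.2, (R + r * cos p.1) * sin p.2, r * sin p.1]

theorem no_immersion (r R s : ℝ) (hr : 0 < r) (hs : 0 < s) (hsr : s < r) (hrR : r < R) :
    ¬ ∃ f, IsIsometricImmersion 3 (warped r R s hr hs (hsr.trans hrR)) f := by
  rintro ⟨f, hf⟩
  have h : R749.Torus.Imm R r s f := by
    refine ⟨hs, hsr, hrR, hf.smooth, fun p => ?_, fun p => ?_, fun p => ?_⟩
    · have := hf.isometric p (1, 0) (1, 0)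
      simpa [warped, R749.Torus.D] using this
    · have := hf.isometric p (1, 0) (0, 1)
      simpa [warped, R749.Torus.D] using this
    · have := hf.isometric p (0, 1) (0, 1)
      simpa [warped, R749.Torus.D] using this
  exact h.absurd (fun u v => (hf.periodic u v).1) (fun u v => (hf.periodic u v).2)

theorem torus_hasFDeriv (r R : ℝ) (p : ℝ × ℝ) : HasFDerivAt (torus r R)
    (LinearMap.toContinuousLinearMap
      { toFun := fun w => !₂[-(r * sin p.1 * cos p.2) * w.1 - (R + r * cos p.1) * sin p.2 * w.2,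
          -(r * sin p.1 * sin p.2) * w.1 + (R + r * cos p.1) * cos p.2 * w.2,
          r * cos p.1 * w.1]
        map_add' := fun a b => by
          ext i
          fin_cases i <;> simp <;> ring
        map_smul' := fun c a => by
          ext i
          fin_cases i <;> simp <;> ring } : ℝ × ℝ →L[ℝ] E3) p := by
  have hf : HasFDerivAt (fun p : ℝ × ℝ => p.1) (ContinuousLinearMap.fst ℝ ℝ ℝ) p := hasFDerivAt_fst
  have hg : HasFDerivAt (fun p : ℝ × ℝ => p.2) (ContinuousLinearMap.snd ℝ ℝ ℝ) p := hasFDerivAt_snd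
  have hA := (hf.cos.const_mul r).const_add R
  rw [← hasFDerivWithinAt_univ, hasFDerivWithinAt_euclidean]
  intro i
  rw [hasFDerivWithinAt_univ]
  fin_cases i
  · have := hA.mul hg.cos
    refine HasFDerivAt.congr_fderiv this ?_
    ext <;> simp <;> ring
  · have := hA.mul hg.sin
    refine HasFDerivAt.congr_fderiv this ?_
    ext <;> simp <;> ring
  · have := hf.sin.const_mul r
    refine HasFDerivAt.congr_fderiv this ?_
    ext <;> simp

theorem torus_embedding (r R : ℝ) (hr : 0 < r) (hrR : r < R) :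
    IsIsometricEmbedding (warped r R r hr hr hrR) (torus r R) := by
  refine ⟨⟨?_, ?_, ?_⟩, ?_⟩
  · unfold torus
    rw [contDiff_euclidean]
    have h1 : ContDiff ℝ ∞ (fun p : ℝ × ℝ => cos p.1) := Real.contDiff_cos.comp contDiff_fst
    have h2 : ContDiff ℝ ∞ (fun p : ℝ × ℝ => cos p.2) := Real.contDiff_cos.comp contDiff_snd
    have h3 : ContDiff ℝ ∞ (fun p : ℝ × ℝ => sin p.1) := Real.contDiff_sin.comp contDiff_fst
    have h4 : ContDiff ℝ ∞ (fun p : ℝ × ℝ => sin p.2) := Real.contDiff_sin.comp contDiff_snd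
    intro i
    fin_cases i
    · exact (contDiff_const.add (contDiff_const.mul h1)).mul h2
    · exact (contDiff_const.add (contDiff_const.mul h1)).mul h4
    · exact contDiff_const.mul h3
  · intro u v
    unfold torus
    simp [cos_add_two_pi, sin_add_two_pi]
  · intro p w w'
    rw [(torus_hasFDeriv r R p).fderiv]
    rw [R749.Torus.inner3]
    simp [warped]
    have h1 := sin_sq_add_cos_sq p.1
    have h2 := sin_sq_add_cos_sq p.2
    linear_combination (r ^ 2 * sin p.1 ^ 2 * w.1 * w'.1 + (R + r * cos p.1) ^ 2 * w.2 * w'.2) * h2 +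
      r ^ 2 * w.1 * w'.1 * h1
  · intro p q hpq
    have e0 : (R + r * cos p.1) * cos p.2 = (R + r * cos q.1) * cos q.2 := congrArg (fun x : E3 => x 0) hpq
    have e1 : (R + r * cos p.1) * sin p.2 = (R + r * cos q.1) * sin q.2 := congrArg (fun x : E3 => x 1) hpq
    have e2 : r * sin p.1 = r * sin q.1 := congrArg (fun x : E3 => x 2) hpq
    have hp : 0 < R + r * cos p.1 := by nlinarith [neg_one_le_cos p.1]
    have hq : 0 < R + r * cos q.1 := by nlinarith [neg_one_le_cos q.1]
    have e3 : (R + r * cos p.1) ^ 2 = (R + r * cos q.1) ^ 2 := by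
      have a := sin_sq_add_cos_sq p.2
      have b := sin_sq_add_cos_sq q.2
      calc (R + r * cos p.1) ^ 2 = ((R + r * cos p.1) * cos p.2) ^ 2 +
            ((R + r * cos p.1) * sin p.2) ^ 2 := by
              linear_combination (-(R + r * cos p.1) ^ 2) * a
        _ = ((R + r * cos q.1) * cos q.2) ^ 2 + ((R + r * cos q.1) * sin q.2) ^ 2 := by
              rw [e0, e1]
        _ = _ := by linear_combination ((R + r * cos q.1) ^ 2) * b
    have e4 : R + r * cos p.1 = R + r * cos q.1 := by
      rwa [sq_eq_sq₀ hp.le hq.le] at e3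
    have e5 : cos p.1 = cos q.1 := by
      have : r * cos p.1 = r * cos q.1 := by linarith
      exact mul_left_cancel₀ hr.ne' this
    have e6 : sin p.1 = sin q.1 := mul_left_cancel₀ hr.ne' e2
    rw [← e4] at e0 e1
    have e7 : cos p.2 = cos q.2 := mul_left_cancel₀ hp.ne' e0
    have e8 : sin p.2 = sin q.2 := mul_left_cancel₀ hp.ne' e1
    have key : ∀ a b : ℝ, cos a = cos b → sin a = sin b → ∃ m : ℤ, b = a + 2 * π * m := by
      intro a b hc hsn
      have h1 : (a : Real.Angle) = b := Real.Angle.cos_sin_inj hc hsn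
      rw [Real.Angle.angle_eq_iff_two_pi_dvd_sub] at h1
      obtain ⟨k, hk⟩ := h1
      refine ⟨-k, ?_⟩
      push_cast
      linarith
    obtain ⟨m, hm⟩ := key _ _ e5 e6
    obtain ⟨n, hn⟩ := key _ _ e7 e8
    exact ⟨m, n, Prod.ext hm hn⟩

theorem iterated_bound {h : ℝ × ℝ → ℝ} (hs : ContDiff ℝ ∞ h) (hp : Biperiodic h) (j : ℕ) :
    ∃ C : ℝ, 0 ≤ C ∧ ∀ p, ‖iteratedFDeriv ℝ j h p‖ ≤ C := by
  have hper : Biperiodic (fun p => iteratedFDeriv ℝ j h p) := by
    intro u v
    constructor
    · have e := iteratedFDeriv_comp_add_right (𝕜 := ℝ) (f := h) j (2 * π, 0) (u, v)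
      have e' : (fun z : ℝ × ℝ => h (z + (2 * π, 0))) = h := by
        funext z
        obtain ⟨a, b⟩ := z
        simpa using (hp a b).1
      rw [e'] at e
      simpa using e.symm
    · have e := iteratedFDeriv_comp_add_right (𝕜 := ℝ) (f := h) j (0, 2 * π) (u, v)
      have e' : (fun z : ℝ × ℝ => h (z + (0, 2 * π))) = h := by
        funext z
        obtain ⟨a, b⟩ := z
        simpa using (hp a b).2
      rw [e'] at e
      simpa using e.symm
  have hc : Continuous (fun p => iteratedFDeriv ℝ j h p) :=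
    hs.continuous_iteratedFDeriv (by exact_mod_cast le_top)
  obtain ⟨C, hC⟩ := ((isCompact_Icc (a := -π) (b := π)).prod
    (isCompact_Icc (a := -π) (b := π))).exists_bound_of_continuousOn hc.continuousOn
  refine ⟨max C 0, le_max_right _ _, fun p => ?_⟩
  obtain ⟨u, v⟩ := p
  have h1 : Function.Periodic (fun u => iteratedFDeriv ℝ j h (u, v)) (2 * π) := fun u => (hper u v).1
  obtain ⟨u', hu', e1⟩ := h1.exists_mem_Ico (by positivity) u (-π)
  have h2 : Function.Periodic (fun v => iteratedFDeriv ℝ j h (u', v)) (2 * π) :=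
    fun v => (hper u' v).2
  obtain ⟨v', hv', e2⟩ := h2.exists_mem_Ico (by positivity) v (-π)
  have e3 : iteratedFDeriv ℝ j h (u, v) = iteratedFDeriv ℝ j h (u', v') := e1.trans e2
  rw [e3]
  refine (hC (u', v') ⟨⟨hu'.1, ?_⟩, ⟨hv'.1, ?_⟩⟩).trans (le_max_left _ _)
  · have := hu'.2; simp only; linarith
  · have := hv'.2; simp only; linarith

theorem close (r R : ℝ) (hr : 0 < r) (hrR : r < R) (k : ℕ) (ε : ℝ) (hε : 0 < ε) :
    ∃ (s : ℝ) (hs : 0 < s) (hsr : s < r),
      CkClose k (warped r R s hr hs (hsr.trans hrR)) (warped r R r hr hr hrR) ε ∧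
      C0Close (warped r R s hr hs (hsr.trans hrR)) (warped r R r hr hr hrR) ε := by
  have hA : ContDiff ℝ ∞ (fun p : ℝ × ℝ => 2 * R * cos p.1) :=
    contDiff_const.mul (Real.contDiff_cos.comp contDiff_fst)
  have hB : ContDiff ℝ ∞ (fun p : ℝ × ℝ => cos p.1 ^ 2) :=
    (Real.contDiff_cos.comp contDiff_fst).pow 2
  choose CA hCA0 hCA using fun j => iterated_bound hA (biperiodic_cos fun t => 2 * R * t) j
  choose CB hCB0 hCB using fun j => iterated_bound hB (biperiodic_cos fun t => t ^ 2) j
  set C : ℝ := ∑ j ∈ Finset.range (k + 1), (CA j + 2 * r * CB j) with hC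
  have hC0 : 0 ≤ C := Finset.sum_nonneg fun j _ => by
    have := hCA0 j; have := hCB0 j; positivity
  have hRr : 0 < R - r := by linarith
  have hR : 0 < R := hr.trans hrR
  set K : ℝ := C + 2 * (R + r) / (R - r) ^ 2 with hK
  have hK0 : 0 < K := by positivity
  set d : ℝ := min (r / 2) (ε / (2 * K)) with hd
  have hd0 : 0 < d := by positivity
  have hd1 : d ≤ r / 2 := min_le_left _ _
  have hd2 : d * K ≤ ε / 2 := by
    have : d ≤ ε / (2 * K) := min_le_right _ _
    calc d * K ≤ ε / (2 * K) * K := by gcongr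
      _ = ε / 2 := by field_simp
  have hs : 0 < r - d := by linarith
  have hsr : r - d < r := by linarith
  refine ⟨r - d, hs, hsr, ?_, d * K, by linarith, ?_⟩
  · intro j hj p
    have h0 : ‖iteratedFDeriv ℝ j (fun _ : ℝ × ℝ => (0 : ℝ)) p‖ ≤ ε := by
      simpa using hε.le
    refine ⟨?_, ?_, ?_⟩
    · have : (fun q => (warped r R (r - d) hr hs (hsr.trans hrR)).E q -
        (warped r R r hr hr hrR).E q) = fun _ => (0 : ℝ) := by
        funext q; simp [warped]
      rw [this]; exact h0
    · have : (fun q => (warped r R (r - d) hr hs (hsr.trans hrR)).F q -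
        (warped r R r hr hr hrR).F q) = fun _ => (0 : ℝ) := by
        funext q; simp [warped]
      rw [this]; exact h0
    · have e : (fun q => (warped r R (r - d) hr hs (hsr.trans hrR)).G q -
        (warped r R r hr hr hrR).G q) = (-d) • (fun p : ℝ × ℝ => 2 * R * cos p.1) +
          (-(d * (2 * r - d))) • (fun p : ℝ × ℝ => cos p.1 ^ 2) := by
        funext q
        simp [warped]
        ring
      rw [e]
      have hjA : ContDiff ℝ j (fun p : ℝ × ℝ => 2 * R * cos p.1) :=
        hA.of_le (by exact_mod_cast le_top)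
      have hjB : ContDiff ℝ j (fun p : ℝ × ℝ => cos p.1 ^ 2) :=
        hB.of_le (by exact_mod_cast le_top)
      rw [iteratedFDeriv_add_apply (f := (-d) • (fun p : ℝ × ℝ => 2 * R * cos p.1))
          (g := (-(d * (2 * r - d))) • (fun p : ℝ × ℝ => cos p.1 ^ 2))
          (hjA.const_smul (-d)).contDiffAt (hjB.const_smul (-(d * (2 * r - d)))).contDiffAt,
        iteratedFDeriv_const_smul_apply hjA.contDiffAt,
        iteratedFDeriv_const_smul_apply hjB.contDiffAt]
      have b1 : CA j + 2 * r * CB j ≤ C := by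
        rw [hC]
        exact Finset.single_le_sum (f := fun j => CA j + 2 * r * CB j)
          (fun i _ => by have := hCA0 i; have := hCB0 i; positivity)
          (Finset.mem_range.2 (by omega))
      calc ‖(-d) • iteratedFDeriv ℝ j (fun p : ℝ × ℝ => 2 * R * cos p.1) p +
            (-(d * (2 * r - d))) • iteratedFDeriv ℝ j (fun p : ℝ × ℝ => cos p.1 ^ 2) p‖
          ≤ d * CA j + (d * (2 * r)) * CB j := by
            refine (norm_add_le _ _).trans (add_le_add ?_ ?_)
            · rw [norm_smul, norm_neg, Real.norm_eq_abs, abs_of_pos hd0]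
              exact mul_le_mul_of_nonneg_left (hCA j p) hd0.le
            · rw [norm_smul, norm_neg, Real.norm_eq_abs,
                abs_of_nonneg (mul_nonneg hd0.le (by linarith))]
              refine mul_le_mul ?_ (hCB j p) (norm_nonneg _) (by positivity)
              exact mul_le_mul_of_nonneg_left (by linarith) hd0.le
        _ = d * (CA j + 2 * r * CB j) := by ring
        _ ≤ d * C := mul_le_mul_of_nonneg_left b1 hd0.le
        _ ≤ d * K := by
            apply mul_le_mul_of_nonneg_left _ hd0.le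
            rw [hK]
            have : 0 ≤ 2 * (R + r) / (R - r) ^ 2 := by positivity
            linarith
        _ ≤ ε := by linarith
  · intro p
    have hφ : 0 < R + r * cos p.1 := by nlinarith [neg_one_le_cos p.1]
    have hφ1 : R - r ≤ R + r * cos p.1 := by nlinarith [neg_one_le_cos p.1]
    have hcos1 := cos_le_one p.1
    have hcos2 := neg_one_le_cos p.1
    have e1 : tensorNorm ((warped r R r hr hr hrR).mat p)
        ((warped r R (r - d) hr hs (hsr.trans hrR)).mat p - (warped r R r hr hr hrR).mat p) =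
        |((R + (r - d) * cos p.1) ^ 2 - (R + r * cos p.1) ^ 2) / (R + r * cos p.1) ^ 2| := by
      unfold tensorNorm TorusMetric.mat warped
      simp only
      rw [Matrix.inv_def, Matrix.det_fin_two_of, Matrix.adjugate_fin_two_of]
      rw [← Real.sqrt_sq_eq_abs]
      congr 1
      rw [Ring.inverse_eq_inv']
      have hr' := hr.ne'
      have hφ' := hφ.ne'
      simp [Matrix.trace_fin_two]
      field_simp
    rw [e1, abs_div, abs_of_pos (show (0:ℝ) < (R + r * cos p.1) ^ 2 by positivity)]
    have e2 : |(R + (r - d) * cos p.1) ^ 2 - (R + r * cos p.1) ^ 2| ≤ d * (2 * (R + r)) := by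
      have e3 : (R + (r - d) * cos p.1) ^ 2 - (R + r * cos p.1) ^ 2 =
          -(d * cos p.1) * (2 * R + (2 * r - d) * cos p.1) := by ring
      rw [e3, abs_mul, abs_neg, abs_mul, abs_of_pos hd0]
      have a1 : |cos p.1| ≤ 1 := abs_cos_le_one _
      have a2 : |2 * R + (2 * r - d) * cos p.1| ≤ 2 * (R + r) := by
        rw [abs_le]
        constructor <;> nlinarith
      calc d * |cos p.1| * |2 * R + (2 * r - d) * cos p.1| ≤ d * 1 * (2 * (R + r)) := by
            gcongr
        _ = d * (2 * (R + r)) := by ring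
    calc |(R + (r - d) * cos p.1) ^ 2 - (R + r * cos p.1) ^ 2| / (R + r * cos p.1) ^ 2
        ≤ d * (2 * (R + r)) / (R - r) ^ 2 := by gcongr
      _ = d * (2 * (R + r) / (R - r) ^ 2) := by ring
      _ ≤ d * K := by
          apply mul_le_mul_of_nonneg_left _ hd0.le
          rw [hK]; linarith

/-- **Negative answer to Lin's question.** (1) The metric of every torus of revolution (radii
`r < R`) is smoothly isometrically embedded in `ℝ³`. (2) For `0 < s < r` the torus with the metric
`r² du² + (R + s cos u)² dv²` has no isometric immersion of class `C³` in `ℝ³`. (3) These metrics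
approximate the metric of the torus of revolution, in the `C⁰` norm and with all derivatives up to
any order `k`. (4) Hence it is not true that for every smoothly isometrically embedded `(T², g₀)`
there is `ε > 0` such that all smooth metrics `g` with `‖g - g₀‖_{C⁰} < ε` have smooth isometric
embeddings in `ℝ³`. -/
theorem result :
    (∀ (r R : ℝ) (hr : 0 < r) (hrR : r < R),
      IsIsometricEmbedding (warped r R r hr hr hrR) (torus r R) ∧
      (∀ (s : ℝ) (hs : 0 < s) (hsr : s < r),
        ¬ ∃ f, IsIsometricImmersion 3 (warped r R s hr hs (hsr.trans hrR)) f) ∧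
      ∀ (k : ℕ) (ε : ℝ), 0 < ε → ∃ (s : ℝ) (hs : 0 < s) (hsr : s < r),
        CkClose k (warped r R s hr hs (hsr.trans hrR)) (warped r R r hr hr hrR) ε ∧
        C0Close (warped r R s hr hs (hsr.trans hrR)) (warped r R r hr hr hrR) ε) ∧
    ¬ ∀ (g₀ : TorusMetric) (f₀ : ℝ × ℝ → E3), IsIsometricEmbedding g₀ f₀ →
      ∃ ε : ℝ, 0 < ε ∧ ∀ g : TorusMetric, C0Close g g₀ ε → ∃ f, IsIsometricEmbedding g f := by
  refine ⟨fun r R hr hrR => ⟨torus_embedding r R hr hrR,
    fun s hs hsr => no_immersion r R s hr hs hsr hrR, fun k ε hε => close r R hr hrR k ε hε⟩, ?_⟩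
  intro H
  obtain ⟨ε, hε, h⟩ := H _ _ (torus_embedding 1 2 one_pos one_lt_two)
  obtain ⟨s, hs, hsr, -, hc⟩ := close 1 2 one_pos one_lt_two 0 ε hε
  obtain ⟨f, hf⟩ := h _ hc
  exact no_immersion 1 2 s one_pos hs hsr one_lt_two
    ⟨f, hf.smooth.of_le (WithTop.coe_le_coe.2 (le_top : (3 : ℕ∞) ≤ ⊤)), hf.periodic, hf.isometric⟩

end Pool.Agent.Results.MP_665542_gt.TorusOfRevolution
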